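import Pool.Agent.N516.TG.Fin

/-!
# Covers of triangular grids by hyperplanes parallel to the facets

`T_d(n)` is the set of the `x : Fin d → ℕ` with `∑ i, x i + 1 ≤ n`. `Facet d`: the hyperplanes
`x_i = b` and `x_1 + ... + x_d = b`, parallel to the facets of the simplex; `cntF F x`, `cntR R x`: the
numbers of members of the lists `F`, `R` of hyperplanes which contain `x`; `fstar k d`: the fractional
covering number `f*(k, d)` of `T_d(k)`.

Idea. For `p` in `T_d(k)` let `S` be the set of the points of `T_d(n)` all of whose `d + 1`
barycentric coordinates `x_t` are such that the hyperplane `x_t = const` has multiplicity at most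
`p_t`. The members of `F` cover its points fewer than `k` times, so `R` covers `S`. A set of this kind,
given by sets `I_t` of coordinates, is not covered by fewer than `∑ |I_t| - d n` hyperplanes
(induction, by slices). Counting the multiplicities the other way gives the cover `G` of `T_d(k)`.
-/

set_option autoImplicit false

namespace Pool.Agent.Results.MP_0ea322_co.FacetParallelCovers

open Pool.Agent.N516.TG

/-- Let `F` be a list of hyperplanes parallel to the facets and `R` a list of arbitrary hyperplanes
such that every point of `T_d(n)` lies in at least `k` members of `F` and `R`. Then some list `G` of at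
most `|F|` hyperplanes parallel to the facets covers every point of `T_d(k)` at least `n - |R|` times,
and `f*(k, d) n ≤ |F| + f*(k, d) |R|`. -/
theorem result (d n k : ℕ) (hd : 1 ≤ d) (F : List (Facet d)) (R : List ((Fin d → ℝ) × ℝ))
    (hR : ∀ h ∈ R, h.1 ≠ 0)
    (hc : ∀ x : Fin d → ℕ, ∑ i, x i + 1 ≤ n → k ≤ cntF F x + cntR R x) :
    (∃ G : List (Facet d), G.length ≤ F.length ∧
      ∀ y : Fin d → ℕ, ∑ i, y i + 1 ≤ k → n ≤ cntF G y + R.length) ∧
    fstar k d * n ≤ F.length + fstar k d * R.length :=
  all d n k hd F R hR hc

end Pool.Agent.Results.MP_0ea322_co.FacetParallelCovers
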